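import Pool.Agent.Helper67.R12.Sheet
import Pool.Agent.Helper29.R8.PAIR

/-! # Row SIEVE of the sheet for `r = 12` (MP_798d7d_nt) -/

set_option autoImplicit false

namespace Pool.Helper67.R12

open Pool.Helper17.R8 (ek q4 q3 q2 q1 q0 fI fJ pI pJ)
open Pool.Helper34.R9 (Box fJh rho ST_SV9 ST_EKL ST_LEAD ST_RES1 ST_RES2 ST_RES3 ST_BD9 chk_fJh)
open Polynomial

namespace S72

section
variable {R S : Type*} [CommRing R] [CommRing S]

theorem map_ss (φ : R →+* S) (u : Fin 3 → R) :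
    (fun i => φ (ss u i)) = ss (fun i => φ (u i)) := by
  funext i
  fin_cases i <;> simp [ss, map_ofNat]

theorem map_fJh (φ : R →+* S) (e : ℕ → R) (κ E : R) :
    φ (fJh e κ E) = fJh (fun k => φ (e k)) (φ κ) (φ E) := by
  unfold fJh
  simp only [map_add, map_sub, map_mul, map_pow, map_ofNat]

/-- scaling of the elementary symmetric functions -/
theorem ek_smul (c : R) (s : Fin 8 → R) (k : ℕ) : ek (fun i => c * s i) k = c ^ k * ek s k := by
  unfold ek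
  rw [Finset.mul_sum]
  refine Finset.sum_congr rfl fun T hT => ?_
  rw [Finset.prod_mul_distrib, Finset.prod_const, (Finset.mem_powersetCard.1 hT).2]

theorem ss_smul (c : R) (u : Fin 3 → R) : ss (fun i => c * u i) = fun i => c * ss u i := by
  funext i
  fin_cases i <;> simp [ss] <;> ring

theorem fJh_smul (c : R) (e : ℕ → R) (κ E : R) :
    fJh (fun k => c ^ k * e k) κ (c ^ 6 * E) = c ^ 30 * fJh e κ E := by
  unfold fJh
  ring

end

/-- the polynomials in `a 0` -/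
noncomputable def up (i j : ℕ) : Fin 3 → ℤ[X] :=
  ![C (ub 0) + C MM * X, C (ub 1 + MM * (i : ℤ)), C (ub 2 + MM * (j : ℤ))]

noncomputable def WW (i j : ℕ) : ℤ[X] := fJh (ek (ss (up i j))) (C 4) (ek (ss (up i j)) 3 ^ 2)

theorem up_eval (a : Fin 3 → ℕ) : (fun i => (up (a 1) (a 2) i).eval (a 0 : ℤ)) = uu a := by
  funext i
  fin_cases i <;> simp [up, uu]

theorem WW_eval (a : Fin 3 → ℕ) : (WW (a 1) (a 2)).eval (a 0 : ℤ) =
    fJh (ek (sa a)) 4 (ek (sa a) 3 ^ 2) := by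
  have h0 : ∀ p : ℤ[X], p.eval (a 0 : ℤ) = (evalRingHom (a 0 : ℤ)) p := fun p => by
    rw [coe_evalRingHom]
  have h1 : ∀ k, (evalRingHom (a 0 : ℤ)) (ek (ss (up (a 1) (a 2))) k) = ek (sa a) k := by
    intro k
    rw [Pool.Helper29.R8.map_ek, map_ss]
    unfold sa
    have h2 : (fun i => (evalRingHom (a 0 : ℤ)) (up (a 1) (a 2) i)) = uu a := by
      rw [← up_eval a]
      funext i
      rw [coe_evalRingHom]
    rw [h2]
  unfold WW
  rw [h0, map_fJh, map_pow, h1]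
  have h3 : (fun k => (evalRingHom (a 0 : ℤ)) (ek (ss (up (a 1) (a 2))) k)) = ek (sa a) := by
    funext k
    exact h1 k
  rw [h3]
  simp

/-- the direction of `a 0` -/
def dl : Fin 8 → ℤ := ![-4, -3, 2, 6, -2, 6, 0, -5]

theorem up_lin (i j : ℕ) (k : Fin 8) : (ss (up i j) k).natDegree ≤ 1 ∧
    (ss (up i j) k).coeff 1 = MM * dl k := by
  have h : ∃ b : ℤ, ss (up i j) k = C (MM * dl k) * X + C b := by
    fin_cases k
    · exact ⟨-4 * ub 0 - (ub 1 + MM * (i : ℤ)), by simp [ss, up, dl]; ring⟩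
    · exact ⟨-3 * ub 0 + 3 * (ub 1 + MM * (i : ℤ)), by simp [ss, up, dl]; ring⟩
    · exact ⟨2 * ub 0 - (ub 2 + MM * (j : ℤ)), by simp [ss, up, dl]; ring⟩
    · exact ⟨6 * ub 0 + 2 * (ub 2 + MM * (j : ℤ)), by simp [ss, up, dl]; ring⟩
    · exact ⟨-2 * ub 0 - 2 * (ub 2 + MM * (j : ℤ)), by simp [ss, up, dl]; ring⟩
    · exact ⟨6 * ub 0 + (ub 2 + MM * (j : ℤ)), by simp [ss, up, dl]; ring⟩
    · exact ⟨-3 * (ub 1 + MM * (i : ℤ)), by simp [ss, up, dl]⟩
    · exact ⟨-5 * ub 0 + (ub 1 + MM * (i : ℤ)), by simp [ss, up, dl]; ring⟩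
  obtain ⟨b, hb⟩ := h
  rw [hb]
  refine ⟨by compute_degree, ?_⟩
  rw [coeff_add, coeff_C_mul, coeff_X_one, coeff_C_of_ne_zero (by norm_num)]
  ring

theorem dl_ek : fJh (ek dl) 4 (ek dl 3 ^ 2) = -(2 ^ 34 * 3 ^ 19 * 5) := by
  decide +kernel

theorem WW_deg (hE : ST_EKL) (hL : ST_LEAD) (i j : ℕ) : (WW i j).natDegree ≤ 30 ∧
    (WW i j).coeff 30 = MM ^ 30 * -(2 ^ 34 * 3 ^ 19 * 5) := by
  have h1 := hE (ss (up i j)) (fun k => MM * dl k) (up_lin i j)
  have h2 : ∀ k, (ek (ss (up i j)) k).natDegree ≤ k ∧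
      (ek (ss (up i j)) k).coeff k = MM ^ k * ek dl k := by
    intro k
    refine ⟨(h1 k).1, ?_⟩
    rw [(h1 k).2, ek_smul]
  have h3 : (ek (ss (up i j)) 3 ^ 2).natDegree ≤ 6 :=
    natDegree_pow_le_of_le 2 (h2 3).1
  have h4 : (ek (ss (up i j)) 3 ^ 2).coeff 6 = MM ^ 6 * ek dl 3 ^ 2 := by
    have h5 := coeff_pow_of_natDegree_le (m := 2) (h2 3).1
    rw [show 3 * 2 = 6 by norm_num] at h5
    rw [h5, (h2 3).2]
    ring
  have h6 := hL (ek (ss (up i j))) (ek (ss (up i j)) 3 ^ 2) (fun k => MM ^ k * ek dl k)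
    (MM ^ 6 * ek dl 3 ^ 2) 4 (fun k _ => h2 k) h3 h4
  unfold WW
  refine ⟨h6.1, ?_⟩
  rw [h6.2, fJh_smul, dl_ek]

theorem MM_pos : 0 < MM :=
  mul_pos (by norm_num) (by exact_mod_cast Nat.factorial_pos QQ)

/-- big primes do not divide small numbers -/
theorem nd_small (q : ℕ) (hq : QQ < q) (n : ℤ) (h0 : n ≠ 0) (h1 : |n| ≤ 1000) : ¬ (q : ℤ) ∣ n := by
  intro h
  have h2 := Int.le_of_dvd (abs_pos.2 h0) ((dvd_abs _ _).2 h)
  unfold QQ at hq
  omega

theorem nd_pow (q : ℕ) (hp : q.Prime) (hq : QQ < q) (n : ℤ) (h0 : n ≠ 0) (h1 : |n| ≤ 1000) (k : ℕ) :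
    ¬ (q : ℤ) ∣ n ^ k := by
  intro h
  exact nd_small q hq n h0 h1 ((Nat.prime_iff_prime_int.1 hp).dvd_of_dvd_pow h)

theorem nd_MM (q : ℕ) (hp : q.Prime) (hq : QQ < q) : ¬ (q : ℤ) ∣ MM := by
  intro h
  unfold MM at h
  rcases (Nat.prime_iff_prime_int.1 hp).dvd_or_dvd h with h1 | h1
  · have h2 : (q : ℤ) ∣ 2 ^ 8 * 3 ^ 3 := by
      norm_num
      exact h1
    rcases (Nat.prime_iff_prime_int.1 hp).dvd_or_dvd h2 with h3 | h3
    · exact nd_pow q hp hq 2 (by norm_num) (by norm_num) 8 h3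
    · exact nd_pow q hp hq 3 (by norm_num) (by norm_num) 3 h3
  · have h2 : q ∣ Nat.factorial QQ := Int.natCast_dvd_natCast.1 h1
    rw [hp.dvd_factorial] at h2
    omega

theorem nd_W (q : ℕ) (hp : q.Prime) (hq : QQ < q) :
    ¬ (q : ℤ) ∣ MM ^ 30 * -(2 ^ 34 * 3 ^ 19 * 5) := by
  intro h
  have hP := Nat.prime_iff_prime_int.1 hp
  rcases hP.dvd_or_dvd h with h1 | h1
  · exact nd_MM q hp hq (hP.dvd_of_dvd_pow h1)
  · rw [dvd_neg] at h1
    rcases hP.dvd_or_dvd h1 with h2 | h2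
    · rcases hP.dvd_or_dvd h2 with h3 | h3
      · exact nd_pow q hp hq 2 (by norm_num) (by norm_num) 34 h3
      · exact nd_pow q hp hq 3 (by norm_num) (by norm_num) 19 h3
    · exact nd_small q hq 5 (by norm_num) (by norm_num) h2

/-- the elementary symmetric functions modulo 7 -/
theorem ek7 (hR : ST_REL) (a : Fin 3 → ℕ) (k : ℕ) :
    ((ek (sa a) k : ℤ) : ZMod 7) = ((ek sb k : ℤ) : ZMod 7) := by
  have h0 : ∀ i, ((sa a i : ℤ) : ZMod 7) = ((sb i : ℤ) : ZMod 7) := by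
    intro i
    have h1 := (hR (a, 0)).2.2.2.2.1 i
    have h2 : ((7 : ℕ) : ℤ) ∣ sa a i - sb i := by
      refine Dvd.dvd.trans ?_ h1
      exact Int.natCast_dvd_natCast.2 (Nat.dvd_factorial (by norm_num) (by unfold QQ; norm_num))
    have h3 := (ZMod.intCast_zmod_eq_zero_iff_dvd (sa a i - sb i) 7).2 h2
    push_cast at h3
    exact sub_eq_zero.1 h3
  have h1 := Pool.Helper29.R8.map_ek (Int.castRingHom (ZMod 7)) (sa a) k
  have h2 := Pool.Helper29.R8.map_ek (Int.castRingHom (ZMod 7)) sb k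
  have h3 : (fun i => (Int.castRingHom (ZMod 7)) (sa a i)) =
      (fun i => (Int.castRingHom (ZMod 7)) (sb i)) := by
    funext i
    simpa using h0 i
  rw [h3] at h1
  have h4 := h1.trans h2.symm
  simpa using h4

theorem rho_ne (hR : ST_REL) (h3 : ST_RES3) (a : Fin 3 → ℕ) : rho (ek (sa a)) ≠ 0 := by
  have E2 : ((ek (sa a) 2 : ℤ) : ZMod 7) = ((-2185 : ℤ) : ZMod 7) := by
    rw [ek7 hR, show ek sb 2 = -2185 by decide +kernel]
  have E3 : ((ek (sa a) 3 : ℤ) : ZMod 7) = ((21240 : ℤ) : ZMod 7) := by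
    rw [ek7 hR, show ek sb 3 = 21240 by decide +kernel]
  have E4 : ((ek (sa a) 4 : ℤ) : ZMod 7) = ((1329408 : ℤ) : ZMod 7) := by
    rw [ek7 hR, show ek sb 4 = 1329408 by decide +kernel]
  have E5 : ((ek (sa a) 5 : ℤ) : ZMod 7) = ((-23598000 : ℤ) : ZMod 7) := by
    rw [ek7 hR, show ek sb 5 = -23598000 by decide +kernel]
  have E6 : ((ek (sa a) 6 : ℤ) : ZMod 7) = ((-61838640 : ℤ) : ZMod 7) := by
    rw [ek7 hR, show ek sb 6 = -61838640 by decide +kernel]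
  have E7 : ((ek (sa a) 7 : ℤ) : ZMod 7) = ((2977508160 : ℤ) : ZMod 7) := by
    rw [ek7 hR, show ek sb 7 = 2977508160 by decide +kernel]
  have E8 : ((ek (sa a) 8 : ℤ) : ZMod 7) = ((-12329501184 : ℤ) : ZMod 7) := by
    rw [ek7 hR, show ek sb 8 = -12329501184 by decide +kernel]
  have F2 : ((ek (sa a) 2 : ℤ) : ZMod 7) = 6 := E2.trans (by decide +kernel)
  have F3 : ((ek (sa a) 3 : ℤ) : ZMod 7) = 2 := E3.trans (by decide +kernel)
  have F4 : ((ek (sa a) 4 : ℤ) : ZMod 7) = 3 := E4.trans (by decide +kernel)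
  have F5 : ((ek (sa a) 5 : ℤ) : ZMod 7) = 1 := E5.trans (by decide +kernel)
  have F6 : ((ek (sa a) 6 : ℤ) : ZMod 7) = 4 := E6.trans (by decide +kernel)
  have F7 : ((ek (sa a) 7 : ℤ) : ZMod 7) = 4 := E7.trans (by decide +kernel)
  have F8 : ((ek (sa a) 8 : ℤ) : ZMod 7) = 0 := E8.trans (by decide +kernel)
  refine h3 7 (ek (sa a)) (by norm_num) ?_ (by decide) ?_
  · push_cast
    rw [F2]
    decide
  · have h7 : (7 : (ZMod 7)[X]) = 0 := by
      have : ((7 : ℕ) : (ZMod 7)[X]) = 0 := CharP.cast_eq_zero _ 7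
      exact_mod_cast this
    refine ⟨2 + 2 * X + 4 * X ^ 2 + X ^ 3 + 6 * X ^ 4, 5 + 4 * X + 6 * X ^ 2, ?_⟩
    unfold pI pJ fI fJ q4 q3 q2 q1 q0
    simp only [F2, F3, F4, F5, F6, F7, F8, map_zero, map_one, map_ofNat]
    linear_combination ((42833) * X ^ 0 + (7102) * X ^ 1 + (-100184) * X ^ 2 +
      (-140921) * X ^ 3 + (-162558) * X ^ 4 + (-7248) * X ^ 5 + (-4320) * X ^ 6 +
      (1728) * X ^ 7) * h7

theorem sa_bd (m : ℕ) (hm : 1 ≤ m) (T : Par) (hT : T ∈ Box m) (i : Fin 8) :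
    |sa T.1 i| ≤ (8 * (13 + MM)) * (m : ℤ) := by
  have hM := MM_pos
  have hm' : (1 : ℤ) ≤ m := by exact_mod_cast hm
  have hu : ∀ j, |uu T.1 j| ≤ (13 + MM) * (m : ℤ) := by
    intro j
    have h1 : T.1 j < m := by
      unfold Box at hT
      rw [Finset.mem_product, Fintype.mem_piFinset] at hT
      exact Finset.mem_range.1 (hT.1 j)
    have h2 : ((T.1 j : ℕ) : ℤ) ≤ m := by exact_mod_cast h1.le
    have h3 : |ub j| ≤ 13 := by
      fin_cases j <;> simp [ub]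
    have h4 : |MM * ((T.1 j : ℕ) : ℤ)| ≤ MM * m := by
      rw [abs_of_nonneg (mul_nonneg hM.le (Int.natCast_nonneg _))]
      exact mul_le_mul_of_nonneg_left h2 hM.le
    unfold uu
    refine (abs_add_le _ _).trans ?_
    nlinarith
  have h0 := abs_le.1 (hu 0)
  have h1 := abs_le.1 (hu 1)
  have h2 := abs_le.1 (hu 2)
  obtain ⟨D, hD⟩ : ∃ D, D = (13 + MM) * (m : ℤ) := ⟨_, rfl⟩
  have e : (8 * (13 + MM)) * (m : ℤ) = 8 * D := by
    rw [hD]
    ring
  rw [e, abs_le]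
  rw [← hD] at h0 h1 h2
  unfold sa
  fin_cases i <;> simp [ss] <;> constructor <;> linarith

end S72

open S72 in
theorem st_SIEVE (hR : ST_REL) (hS : ST_SV9) (hE : ST_EKL) (hL : ST_LEAD) (h1 : ST_RES1)
    (h2 : ST_RES2) (h3 : ST_RES3) (hB : ST_BD9) : ST_SIEVE := by
  have hM := MM_pos
  obtain ⟨C1, hC1, hB1⟩ := hB (8 * (13 + MM)) (by linarith)
  obtain ⟨C2, hC2, hB2⟩ := h2 C1 hC1
  have hfI : ∀ T, fI (ek (sa T.1)) (tt T) = -(48 * cA T) := by
    intro T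
    have := (hR T).2.2.1
    linarith
  have hfJ : ∀ T, fJ (ek (sa T.1)) (tt T) = -(1728 * cB T) := by
    intro T
    have := (hR T).2.2.2.1
    linarith
  refine hS QQ 30 240 MM 4 46 1728 (fun a => pJ (ek (sa a))) (fun a => ek (sa a) 3 ^ 2)
    (fun a => rho (ek (sa a))) WW cA cB tt C2 (by unfold QQ; norm_num) (by norm_num) hC2
    ?_ ?_ ?_ ?_ ?_ ?_ ?_ ?_ ?_
  · intro q hp hq
    refine ⟨nd_MM q hp hq, nd_small q hq 4 (by norm_num) (by norm_num), ?_, ?_⟩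
    · intro h
      have h4 : (q : ℤ) ∣ 2 ^ 6 * 3 ^ 3 := by
        norm_num
        exact h
      rcases (Nat.prime_iff_prime_int.1 hp).dvd_or_dvd h4 with h5 | h5
      · exact nd_pow q hp hq 2 (by norm_num) (by norm_num) 6 h5
      · exact nd_pow q hp hq 3 (by norm_num) (by norm_num) 3 h5
    · intro i j
      rw [(WW_deg hE hL i j).2]
      exact nd_W q hp hq
  · intro a
    exact Pool.Helper29.R8.natDegree_pJ _
  · intro i j
    exact (WW_deg hE hL i j).1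
  · intro T
    exact (hR T).1
  · intro T q k h
    rw [Pool.Helper29.R8.eval_pJ, hfJ T]
    exact (Dvd.dvd.mul_left h _).neg_right
  · intro a q hp hq t ht hJ
    rw [WW_eval]
    rw [Pool.Helper29.R8.eval_pJ] at hJ
    have e1 : ((4 * t : ℤ) : ZMod q) = ((ek (sa a) 3 ^ 2 : ℤ) : ZMod q) := by
      have := (ZMod.intCast_zmod_eq_zero_iff_dvd _ q).2 ht
      push_cast at this ⊢
      exact sub_eq_zero.1 this
    have e2 := map_fJh (Int.castRingHom (ZMod q)) (ek (sa a)) 4 (ek (sa a) 3 ^ 2)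
    have e3 := map_fJh (Int.castRingHom (ZMod q)) (ek (sa a)) 4 (4 * t)
    have e4 : (Int.castRingHom (ZMod q)) (ek (sa a) 3 ^ 2) =
        (Int.castRingHom (ZMod q)) (4 * t) := e1.symm
    rw [e4, ← e3, chk_fJh] at e2
    have e5 : (Int.castRingHom (ZMod q)) (4 ^ 5 * fJ (ek (sa a)) t) = 0 :=
      (ZMod.intCast_zmod_eq_zero_iff_dvd _ q).2 (Dvd.dvd.mul_left hJ _)
    rw [e5] at e2
    exact (ZMod.intCast_zmod_eq_zero_iff_dvd _ q).1 e2
  · intro T q hp hq hA hB'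
    refine h1 (ek (sa T.1)) (tt T) q ?_ ?_
    · rw [hfI T]
      exact (Dvd.dvd.mul_left hA _).neg_right
    · rw [hfJ T]
      exact (Dvd.dvd.mul_left hB' _).neg_right
  · intro a
    exact rho_ne hR h3 a
  · intro m hm T hT
    refine hB2 m (ek (sa T.1)) hm ?_
    exact (hB1 m (sa T.1) 0 hm (sa_bd m hm T hT) (by
      rw [abs_zero]
      positivity)).1

end Pool.Helper67.R12
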